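import Pool.Agent.U424.DQ.Stm
import Pool.Agent.N286.DC.ARI
import Pool.Agent.N353.PN.UN3

/-!
# The diagonal quadric over a sample point is soluble over the rational numbers (project DQ, part ARIM)
-/

set_option autoImplicit false
set_option linter.all false

namespace Pool.Agent.U460.DQ

open Finset Pool.Agent.N718.DC Pool.Agent.U424.DQ

/-- a solution supported on three indices -/
theorem solM_three {m : ℕ} {K : Type} [Field K] (A : Fin m → K) {a b c : Fin m} (hab : a ≠ b)
    (hac : a ≠ c) (hbc : b ≠ c) {u v w : K} (hne : u ≠ 0 ∨ v ≠ 0 ∨ w ≠ 0)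
    (he : A a * u ^ 2 + A b * v ^ 2 + A c * w ^ 2 = 0) : SolM A := by
  classical
  set x : Fin m → K := fun l => if l = a then u else if l = b then v else
      if l = c then w else 0 with hx
  have x0 : x a = u := by simp [hx]
  have x1 : x b = v := by simp [hx, hab.symm]
  have x2 : x c = w := by simp [hx, hac.symm, hbc.symm]
  refine ⟨x, ?_, ?_⟩
  · intro h
    rcases hne with h3 | h3 | h3
    · exact h3 (by rw [← x0, h]; rfl)
    · exact h3 (by rw [← x1, h]; rfl)
    · exact h3 (by rw [← x2, h]; rfl)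
  · have hs : ∑ l : Fin m, A l * x l ^ 2 = ∑ l ∈ ({a, b, c} : Finset (Fin m)), A l * x l ^ 2 := by
      symm
      apply Finset.sum_subset (Finset.subset_univ _)
      intro l _ hl
      simp only [Finset.mem_insert, Finset.mem_singleton, not_or] at hl
      simp [hx, hl.1, hl.2.1, hl.2.2]
    rw [hs, Finset.sum_insert (by simp [hab, hac]), Finset.sum_insert (by simp [hbc]),
      Finset.sum_singleton, x0, x1, x2]
    linear_combination he

theorem arim_ (h : S_HMM) : S_ARIM := by
  classical
  intro m hm M f g s hM h2M hg hf hs hreal hloc F hFf P hP hne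
  have hgp : ∀ l, 0 < g l := fun l => Nat.pos_of_dvd_of_pos (hg l).1 hM
  have hpos : ∀ l, 0 < s l * F l := by
    intro l
    rw [(hP l).2]
    have := (hP l).1.pos
    have := hgp l
    positivity
  have hF0 : ∀ l, F l ≠ 0 := by
    intro l h0
    have := hpos l
    rw [h0, mul_zero] at this
    exact lt_irrefl _ this
  apply h m hm F hF0
  · -- the real numbers
    have hz : ∀ l, 0 < (s l : ℝ) * (F l : ℝ) := by
      intro l
      exact_mod_cast hpos l
    have h1 := hreal.mul (fun l => Real.sqrt ((s l : ℝ) * (F l : ℝ)))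
      (fun l => (Real.sqrt_pos.2 (hz l)).ne') 1
    have h2 : (fun l => (1 : ℝ) * ((s l : ℝ) * (Real.sqrt ((s l : ℝ) * (F l : ℝ))) ^ 2)) =
        fun l => ((F l : ℤ) : ℝ) := by
      funext l
      rw [Real.sq_sqrt (hz l).le, one_mul, ← mul_assoc]
      rcases hs l with h3 | h3 <;> rw [h3] <;> push_cast <;> ring
    rw [h2] at h1
    exact h1
  · intro p hp
    by_cases hpM : p ∣ M
    · have h3 : ∀ l, ∃ c : ℚ_[p], c ≠ 0 ∧ ((F l : ℤ) : ℚ_[p]) = ((f l : ℤ) : ℚ_[p]) * c ^ 2 := by
        intro l
        obtain ⟨n, hn, hco⟩ := hf l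
        obtain ⟨k, hk⟩ := hFf l
        have hMg : (M : ℤ) = g l * ((M / g l : ℕ) : ℤ) := by
          exact_mod_cast (Nat.mul_div_cancel' (hg l).1).symm
        have e1 : F l = g l * (n + ((M / g l : ℕ) : ℤ) * k) := by
          have : F l = f l + M * k := by linarith
          rw [this, hn]
          conv_lhs => rw [hMg]
          ring
        have hpn : ¬ (p : ℤ) ∣ n := by
          intro h4
          have h6 : (p : ℤ) ∣ (M : ℤ) := by exact_mod_cast hpM
          have h7 : IsUnit (p : ℤ) := hco.isUnit_of_dvd' h4 h6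
          rw [Int.isUnit_iff_natAbs_eq] at h7
          simp at h7
          exact hp.out.one_lt.ne' h7
        have h5 : (p : ℤ) ^ 3 ∣ (n + ((M / g l : ℕ) : ℤ) * k) - n := by
          have h6 : (p : ℤ) ^ 3 ∣ ((M / g l : ℕ) : ℤ) := by exact_mod_cast (hg l).2 p hp.out hpM
          have : (n + ((M / g l : ℕ) : ℤ) * k) - n = ((M / g l : ℕ) : ℤ) * k := by ring
          rw [this]
          exact dvd_mul_of_dvd_left h6 _
        obtain ⟨c, hc0, hc⟩ := Pool.Agent.N286.DC.unit_sq hpn h5
        refine ⟨c, hc0, ?_⟩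
        rw [e1, hn, Int.cast_mul, Int.cast_mul, hc]
        ring
      choose c hc0 hc using h3
      have h4 := (hloc p hpM).mul c hc0 1
      have h5 : (fun l => (1 : ℚ_[p]) * (((f l : ℤ) : ℚ_[p]) * c l ^ 2)) =
          fun l => ((F l : ℤ) : ℚ_[p]) := by
        funext l
        rw [hc l, one_mul]
      rw [h5] at h4
      exact h4
    · have hpne2 : p ≠ 2 := fun h3 => hpM (h3 ▸ h2M)
      have hdv : ∀ l, (p : ℤ) ∣ F l → p = P l := by
        intro l hd
        have h3 : (p : ℤ) ∣ (g l : ℤ) * (P l : ℤ) := by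
          rw [← (hP l).2]
          exact dvd_mul_of_dvd_right hd _
        have h4 : p ∣ g l * P l := by exact_mod_cast h3
        rcases (hp.out.dvd_mul).1 h4 with h5 | h5
        · exact absurd (h5.trans (hg l).1) hpM
        · exact (Nat.prime_dvd_prime_iff_eq hp.out (hP l).1).1 h5
      have hbad : ((univ : Finset (Fin m)).filter (fun l => (p : ℤ) ∣ F l)).card ≤ 1 := by
        rw [Finset.card_le_one]
        intro a ha b hb
        rw [Finset.mem_filter] at ha hb
        have e1 := hdv a ha.2
        have e2 := hdv b hb.2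
        rcases lt_trichotomy a b with h3 | h3 | h3
        · exact absurd (e1.symm.trans e2) (hne a b h3)
        · exact h3
        · exact absurd (e2.symm.trans e1) (hne b a h3)
      have hgood : 2 < ((univ : Finset (Fin m)).filter (fun l => ¬ (p : ℤ) ∣ F l)).card := by
        have h3 := Finset.card_filter_add_card_filter_not (s := (univ : Finset (Fin m)))
          (fun l => (p : ℤ) ∣ F l)
        rw [Finset.card_univ, Fintype.card_fin] at h3
        omega
      obtain ⟨a, b, c, ha, hb, hc, hab, hac, hbc⟩ := Finset.two_lt_card_iff.1 hgood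
      rw [Finset.mem_filter] at ha hb hc
      have hnorm : ∀ l, ¬ (p : ℤ) ∣ F l → ‖((F l : ℤ) : ℚ_[p])‖ = 1 := by
        intro l hl
        apply le_antisymm (Padic.norm_int_le_one _)
        by_contra hcon
        push Not at hcon
        exact hl ((Padic.norm_intCast_lt_one_iff).1 hcon)
      obtain ⟨u, v, w, h0, h1⟩ := Pool.Agent.N353.PN.un3_ p hpne2 ((F a : ℤ) : ℚ_[p])
        ((F b : ℤ) : ℚ_[p]) (-((F c : ℤ) : ℚ_[p])) (hnorm a ha.2) (hnorm b hb.2)
        (by rw [norm_neg]; exact hnorm c hc.2)
      exact solM_three _ hab hac hbc h0 (by linear_combination h1)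

end Pool.Agent.U460.DQ
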