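import Mathlib
import Pool.Agent.U424.DQ.StmN
import Pool.Agent.N546.PN.Main
import Pool.Agent.N546.PW.Det

/-!
# Project DQN (helper460): the main theorem on weak approximation for quadric bundles over
projective spaces

Adapted from the main theorem of project PW (helper546).
-/

set_option autoImplicit false
set_option linter.all false

namespace Pool.Agent.U460.DQ

open Finset Filter Topology
open Pool.Agent.U424.DQ
open Pool.Agent.N546.PN

lemma cm_of_onm {r : ℕ} {d : Fin r → ℕ} {K : Type} [Field K] {a : (Σ i : Fin r, Fin (d i)) → K}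
    {z : (i : Fin r) → Fin (d i) → K} (h : OnM a z) : CM a :=
  fun i => ⟨z i, (h i).1, (h i).2⟩

lemma onm_of_cm {r : ℕ} {d : Fin r → ℕ} {K : Type} [Field K] {a : (Σ i : Fin r, Fin (d i)) → K}
    (h : CM a) : ∃ z : (i : Fin r) → Fin (d i) → K, OnM a z := by
  choose u h1 h2 using h
  exact ⟨u, fun i => ⟨h1 i, h2 i⟩⟩

theorem detm (hgluw : S_GLUNM) {n r : ℕ} {d : Fin r → ℕ} (hd : ∀ i, 3 ≤ d i) {e : (Σ i : Fin r, Fin (d i)) → ℕ} (he : ∀ i l l', e ⟨i, l⟩ = e ⟨i, l'⟩)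
    (m : ℕ) (hm : 1 ≤ m) (c : (k : Σ i : Fin r, Fin (d i)) → Mon n (e k + 1) → ℤ)
    (X : (p : Nat.Primes) → Fin (n + 1) → ℚ_[(p : ℕ)])
    (Z : (p : Nat.Primes) → (i : Fin r) → Fin (d i) → ℚ_[(p : ℕ)])
    (XR : Fin (n + 1) → ℝ) (ZR : (i : Fin r) → Fin (d i) → ℝ)
    (hXZ : ∀ p : Nat.Primes, (p : ℕ) ≤ m → ‖X p‖ = 1 ∧ (∀ i, ‖Z p i‖ = 1)) (hXR : ‖XR‖ = 1)
    (hZR : ∀ i, ‖ZR i‖ = 1)
    (b : Fin (n + 1) → ℤ) (t δ₁ : ℝ) (ht : 0 < t) (hδ₁ : 0 < δ₁) (xsj : Fin (n + 1) → ℝ)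
    (hr1 : ∀ i, |xsj i - XR i| < 1 / (4 * (m : ℝ))) (hδ₁' : δ₁ ≤ 1 / (4 * (m : ℝ)))
    (hr2 : ∀ x'' : Fin (n + 1) → ℝ, (∀ i, |x'' i - xsj i| < δ₁) →
      ∃ z'' : (i : Fin r) → Fin (d i) → ℝ, (∀ i l, |z'' i l - ZR i l| < 1 / (4 * (m : ℝ))) ∧
          OnM (fun k => val (ic c ℝ k) x'') z'')
    (hb : ∀ i, |(b i : ℝ) / t - xsj i| < δ₁ / 2)
    (Nw : ℕ → ℕ) (hNw : ∀ p, 2 * m ≤ Nw p) (NN : ℕ) (hNN : ∀ p : ℕ, p.Prime → p ≤ m → Nw p ≤ NN)
    (ap : (p : Nat.Primes) → Fin (n + 1) → ℤ)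
    (hap : ∀ p : Nat.Primes, (p : ℕ) ≤ m →
      (∀ i, ‖((ap p i : ℤ) : ℚ_[(p : ℕ)]) - X p i‖ < 1 / (2 * (m : ℝ))) ∧
        StabWM (p : ℕ) (Nw p) (1 / (2 * (m : ℝ))) c (ap p) (Z p))
    (hbp : ∀ p : Nat.Primes, (p : ℕ) ≤ m → ∀ i, ((p : ℕ) : ℤ) ^ (Nw p) ∣ b i - ap p i)
    (i₁ : Fin (n + 1)) (x y : ℤ) (hx : 0 < x) (hy : |(y : ℝ) / x| < t * δ₁ / 2)
    (hne : ∀ k, val (ic c ℚ k) (fun i => ((x * b i + if i = i₁ then y else 0 : ℤ) : ℚ)) ≠ 0)
    (hC : CM (fun k => val (ic c ℚ k) (fun i => ((x * b i + if i = i₁ then y else 0 : ℤ) : ℚ))))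
    (hxy : ∀ p : Nat.Primes, (p : ℕ) ≤ m → ‖(1 : ℚ_[(p : ℕ)]) - (x : ℚ_[(p : ℕ)])‖ ≤
      (((p : ℕ) : ℝ) ^ NN)⁻¹ ∧ ‖(0 : ℚ_[(p : ℕ)]) - (y : ℚ_[(p : ℕ)])‖ ≤ (((p : ℕ) : ℝ) ^ NN)⁻¹) :
    ∃ (x : Fin (n + 1) → ℚ) (z : (i : Fin r) → Fin (d i) → ℚ), x ≠ 0 ∧ OnM (fun k => val (ic c ℚ k) x) z ∧
      (∀ p : Nat.Primes, (p : ℕ) ≤ m →
        Pool.Agent.N718.DC.Near (2 * (1 / (2 * (m : ℝ)))) (X p) (fun j => (x j : ℚ_[(p : ℕ)])) ∧
        ∀ i, Pool.Agent.N718.DC.Near (2 * (1 / (2 * (m : ℝ)))) (Z p i)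
          (fun j => (z i j : ℚ_[(p : ℕ)]))) ∧
      Pool.Agent.N718.DC.Near (2 * (1 / (2 * (m : ℝ)))) XR (fun j => (x j : ℝ)) ∧
        ∀ i, Pool.Agent.N718.DC.Near (2 * (1 / (2 * (m : ℝ)))) (ZR i) (fun j => (z i j : ℝ)) := by
  have hm0 : (0 : ℝ) < m := by exact_mod_cast hm
  have hm1 : (1 : ℝ) ≤ m := by exact_mod_cast hm
  have hx0 : (0 : ℝ) < x := by exact_mod_cast hx
  have h42 : 1 / (4 * (m : ℝ)) ≤ 1 / (2 * (m : ℝ)) := by
    refine one_div_le_one_div_of_le (by positivity) ?_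
    linarith
  have h44 : 1 / (4 * (m : ℝ)) + 1 / (4 * (m : ℝ)) = 1 / (2 * (m : ℝ)) := by
    field_simp
    norm_num
  set q : Fin (n + 1) → ℤ := fun i => x * b i + if i = i₁ then y else 0 with hq
  -- the real point
  have hq1 : ∀ i, |(q i : ℝ) / (x * t) - xsj i| < δ₁ := by
    intro i
    have h1 : (q i : ℝ) / (x * t) - xsj i = ((b i : ℝ) / t - xsj i) +
        (if i = i₁ then (y : ℝ) / x / t else 0) := by
      rw [hq]
      simp only
      split_ifs with h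
      · push_cast
        field_simp
        ring
      · push_cast
        field_simp
        ring
    rw [h1]
    refine (abs_add_le _ _).trans_lt ?_
    have h2 : |(if i = i₁ then (y : ℝ) / x / t else 0)| < δ₁ / 2 := by
      split_ifs with h
      · rw [abs_div, abs_of_pos ht, div_lt_iff₀ ht]
        linarith
      · rw [abs_zero]
        positivity
    linarith [hb i]
  refine hgluw n r d hd e he c m (1 / (2 * (m : ℝ))) (by positivity) ?_ q (x * t) (by positivity) hne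
    (onm_of_cm hC) X Z XR ZR hXZ hXR hZR ?_ ?_ ?_
  · refine one_div_le_one_div_of_le (by norm_num) ?_
    linarith
  · intro p hp
    haveI : Fact (p : ℕ).Prime := ⟨p.2⟩
    obtain ⟨h1, h2⟩ := hap p hp
    obtain ⟨h3, h4⟩ := hxy p hp
    have hle : (((p : ℕ) : ℝ) ^ NN)⁻¹ ≤ (((p : ℕ) : ℝ) ^ (Nw p))⁻¹ := by
      have hp1 : (1 : ℝ) ≤ ((p : ℕ) : ℝ) := by exact_mod_cast p.2.one_le
      exact inv_anti₀ (by positivity) (pow_le_pow_right₀ hp1 (hNN p p.2 hp))
    have h5 : ((p : ℕ) : ℤ) ^ (Nw p) ∣ x - 1 := by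
      refine dvd_of_norm ?_
      rw [Int.cast_sub, Int.cast_one, norm_sub_rev]
      exact h3.trans hle
    have h6 : ((p : ℕ) : ℤ) ^ (Nw p) ∣ y := by
      refine dvd_of_norm ?_
      rw [zero_sub, norm_neg] at h4
      exact h4.trans hle
    have h7 : ∀ i, ((p : ℕ) : ℤ) ^ (Nw p) ∣ q i - ap p i := by
      intro i
      have h8 : q i - ap p i = (x - 1) * b i + (if i = i₁ then y else 0) + (b i - ap p i) := by
        rw [hq]
        ring
      rw [h8]
      refine dvd_add (dvd_add (Dvd.dvd.mul_right h5 _) ?_) (hbp p hp i)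
      split_ifs
      · exact h6
      · exact dvd_zero _
    refine ⟨fun i => ?_, ?_⟩
    · have h8 : (q i : ℚ_[(p : ℕ)]) - X p i =
          (((q i - ap p i : ℤ) : ℚ_[(p : ℕ)])) + (((ap p i : ℤ) : ℚ_[(p : ℕ)]) - X p i) := by
        push_cast
        ring
      rw [h8]
      refine (Padic.nonarchimedean _ _).trans_lt (max_lt ?_ (h1 i))
      exact (norm_of_dvd (h7 i)).trans_lt (small p.2 hm (hNw p))
    · exact (h2 c q (fun k m => by rw [sub_self]; exact dvd_zero _) h7).2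
  · intro i
    have h1 : (q i : ℝ) / (x * t) - XR i = ((q i : ℝ) / (x * t) - xsj i) + (xsj i - XR i) := by ring
    rw [h1]
    refine (abs_add_le _ _).trans_lt ?_
    have := hq1 i
    have := hr1 i
    linarith
  · obtain ⟨z'', h1, h2⟩ := hr2 _ hq1
    exact ⟨z'', fun i l => (h1 i l).trans_le h42, h2⟩

open Classical in
lemma card_le_five {α : Type} [DecidableEq α] {β β' γ : Type} (s A : Finset α) (t : Finset β)
    (B : β → Finset α) (t' : Finset β') (B' : β' → Finset α) (u : Finset γ) (D E : γ → Finset α)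
    (h : ∀ x ∈ s, x ∈ A ∨ (∃ i ∈ t, x ∈ B i) ∨ (∃ i ∈ t', x ∈ B' i) ∨ (∃ j ∈ u, x ∈ D j) ∨
      (∃ j ∈ u, x ∈ E j)) :
    (s.card : ℝ) ≤ A.card + ∑ i ∈ t, ((B i).card : ℝ) + ∑ i ∈ t', ((B' i).card : ℝ) +
      ∑ j ∈ u, ((D j).card : ℝ) + ∑ j ∈ u, ((E j).card : ℝ) := by
  have h1 : s ⊆ (((A ∪ t.biUnion B) ∪ t'.biUnion B') ∪ u.biUnion D) ∪ u.biUnion E := by
    intro x hx
    simp only [Finset.mem_union, Finset.mem_biUnion]
    rcases h x hx with h | h | h | h | h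
    · exact Or.inl (Or.inl (Or.inl (Or.inl h)))
    · exact Or.inl (Or.inl (Or.inl (Or.inr h)))
    · exact Or.inl (Or.inl (Or.inr h))
    · exact Or.inl (Or.inr h)
    · exact Or.inr h
  have h2 := Finset.card_le_card h1
  have h3 := Finset.card_union_le (((A ∪ t.biUnion B) ∪ t'.biUnion B') ∪ u.biUnion D) (u.biUnion E)
  have h4 := Finset.card_union_le ((A ∪ t.biUnion B) ∪ t'.biUnion B') (u.biUnion D)
  have h5 := Finset.card_union_le (A ∪ t.biUnion B) (t'.biUnion B')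
  have h5' := Finset.card_union_le A (t.biUnion B)
  have h6 : (t.biUnion B).card ≤ ∑ i ∈ t, (B i).card := Finset.card_biUnion_le
  have h6' : (t'.biUnion B').card ≤ ∑ i ∈ t', (B' i).card := Finset.card_biUnion_le
  have h7 : (u.biUnion D).card ≤ ∑ i ∈ u, (D i).card := Finset.card_biUnion_le
  have h8 : (u.biUnion E).card ≤ ∑ i ∈ u, (E i).card := Finset.card_biUnion_le
  have h9 : s.card ≤ A.card + ∑ i ∈ t, (B i).card + ∑ i ∈ t', (B' i).card + ∑ j ∈ u, (D j).card +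
      ∑ j ∈ u, (E j).card := by
    omega
  exact_mod_cast h9

/-- The families for which some `p`-adic points are not near stable ones. -/
def BadWM {n r : ℕ} {d : Fin r → ℕ} {e : (Σ i : Fin r, Fin (d i)) → ℕ} (p : ℕ) (hp : Fact p.Prime) (N : ℕ) (ε' : ℝ)
    (c : (k : Σ i : Fin r, Fin (d i)) → Mon n (e k + 1) → ℤ) : Prop := ¬ StPM p N ε' c

open Classical in
theorem mainnm_ (hlin : S_LIN) (htail : S_TAIL) (hlsol : S_LSOL) (hcho : S_CHO) (hpad : S_PADN)
    (hrealw : S_REALWM) (hpadw : S_PADNM) (hlinw : S_LINW) (hgluw : S_GLUNM)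
    (hnrm : ∀ (n r : ℕ) (d : Fin r → ℕ) (e : (Σ i : Fin r, Fin (d i)) → ℕ),
      (∀ i l l', e ⟨i, l⟩ = e ⟨i, l'⟩) →
      ∀ m : ℕ, 1 ≤ m → ∀ c : (k : Σ i : Fin r, Fin (d i)) → Mon n (e k + 1) → ℤ,
        WAnM m (1 / (2 * (m : ℝ))) c → WAmM m c)
    (hA : S_MAINAG) (hTY : S_TYPM) : S_MAINNM := by
  intro n r d hd e he hun m hn hm η hη
  have hpar : ∀ i l l', e ⟨i, l⟩ % 2 = e ⟨i, l'⟩ % 2 := fun i l l' => by rw [he i l l']
  set T := typM hd e hpar hun with hT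
  have hm0 : (0 : ℝ) < m := by exact_mod_cast hm
  have hm1 : (1 : ℝ) ≤ m := by exact_mod_cast hm
  have h21 : 1 / (2 * (m : ℝ)) ≤ 1 := by
    rw [div_le_one (by positivity)]
    linarith
  -- the real place
  obtain ⟨R, xs, δ, hδ, H1, hR⟩ := hrealw n r d hd e (η / 6) (1 / (4 * (m : ℝ))) (by positivity)
    (by positivity)
  set δ₁ : ℝ := min δ (1 / (4 * (m : ℝ))) with hδ1
  have hδ₁ : 0 < δ₁ := lt_min hδ (by positivity)
  -- the primes up to m
  have hW : ∀ p : ℕ, ∃ N : ℕ, 2 * m ≤ N ∧ ∃ H₀ : ℕ, ∀ hp : Fact p.Prime, ∀ H : ℕ, H₀ ≤ H →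
      (((bx n e H).filter (fun c => BadWM p hp N (1 / (2 * (m : ℝ))) c)).card : ℝ) ≤
        η / (6 * (m + 1)) * ((2 * H + 1 : ℕ) : ℝ) ^ sz n e := by
    intro p
    by_cases hp : p.Prime
    · haveI : Fact p.Prime := ⟨hp⟩
      obtain ⟨N₀, h⟩ := hpadw n r d hd e p (η / (6 * (m + 1))) (1 / (2 * (m : ℝ))) (by positivity)
        (by positivity) h21
      obtain ⟨H₀, h⟩ := h (max N₀ (2 * m)) (le_max_left _ _)
      refine ⟨max N₀ (2 * m), le_max_right _ _, H₀, fun hp' H hH => ?_⟩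
      refine le_trans ?_ (h H hH)
      rw [Nat.cast_le]
      refine Finset.card_le_card ?_
      intro c hc
      have hc' := (@Finset.mem_filter _ _ _ _ _).1 hc
      exact (@Finset.mem_filter _ _ _ _ _).2 ⟨hc'.1, hc'.2⟩
    · exact ⟨2 * m, le_rfl, 0, fun hp' => absurd hp'.out hp⟩
  choose Nw hNw Hw hWc using hW
  set tm : Finset ℕ := (Icc 1 m).filter Nat.Prime with htm
  have htmm : ∀ p : ℕ, p.Prime → p ≤ m → p ∈ tm := fun p hp hpm =>
    Finset.mem_filter.2 ⟨Finset.mem_Icc.2 ⟨hp.one_le, hpm⟩, hp⟩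
  set M₀ : ℕ := ∏ p ∈ tm, p ^ (Nw p) with hM₀
  have hM₀1 : 1 ≤ M₀ := by
    refine Nat.one_le_iff_ne_zero.2 (Finset.prod_ne_zero_iff.2 fun p hp => ?_)
    exact pow_ne_zero _ (Finset.mem_filter.1 hp).2.ne_zero
  have hM₀dvd : ∀ p : ℕ, p.Prime → p ≤ m → (p : ℤ) ^ Nw p ∣ (M₀ : ℤ) := fun p hp hpm => by
    have h : p ^ Nw p ∣ M₀ := Finset.dvd_prod_of_mem (fun p => p ^ (Nw p)) (htmm p hp hpm)
    exact_mod_cast h
  have hM₀r : (0 : ℝ) < M₀ := by exact_mod_cast hM₀1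
  set NN : ℕ := ∑ p ∈ Icc 1 m, Nw p with hNN
  have hNN' : ∀ p : ℕ, p.Prime → p ≤ m → Nw p ≤ NN := fun p hp hpm =>
    Finset.single_le_sum (f := fun p => Nw p) (fun _ _ => Nat.zero_le _)
      (Finset.mem_Icc.2 ⟨hp.one_le, hpm⟩)
  have hSf : {p : Nat.Primes | (p : ℕ) ≤ m}.Finite :=
    Set.Finite.preimage (fun a _ b _ h => Subtype.ext h) (Set.finite_le_nat m)
  set S : Finset Nat.Primes := hSf.toFinset with hS
  have hSm : ∀ p : Nat.Primes, p ∈ S ↔ (p : ℕ) ≤ m := fun p => by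
    rw [hS, Set.Finite.mem_toFinset]
    rfl
  -- the bound for the tail
  obtain ⟨C, hC0, hC⟩ := htail n (Σ i : Fin r, Fin (d i)) e
  set W₀ : ℝ := (M₀ : ℝ) ^ (n + 1) with hW0
  have hW0p : 0 < W₀ := by positivity
  obtain ⟨P, hP⟩ : ∃ P : ℕ, 2 ≤ P ∧ m ≤ P ∧ ∑ k, (e k + 1) ≤ P ∧ 6 * (C * R * W₀) / η ≤ P := by
    refine ⟨max (max 2 m) (max (∑ k, (e k + 1)) ⌈6 * (C * R * W₀) / η⌉₊),
      (le_max_left _ _).trans (le_max_left _ _), (le_max_right _ _).trans (le_max_left _ _),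
      (le_max_left _ _).trans (le_max_right _ _), ?_⟩
    refine (Nat.le_ceil _).trans ?_
    exact_mod_cast (le_max_right _ _).trans (le_max_right _ _)
  obtain ⟨hP2, hPm, hPe, hPC⟩ := hP
  have hP0 : (0 : ℝ) < P := by
    have : 0 < P := by omega
    exact_mod_cast this
  -- the places up to P
  have h3 : ∀ p : ℕ, ∃ N H₀ : ℕ, ∀ hp : Fact p.Prime, ∀ H : ℕ, H₀ ≤ H →
      (((bx n e H).filter (fun c => BadP T p hp N c)).card : ℝ) ≤
        η / (6 * (P + 1)) * ((2 * H + 1 : ℕ) : ℝ) ^ sz n e := by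
    intro p
    by_cases hp : p.Prime
    · haveI : Fact p.Prime := ⟨hp⟩
      obtain ⟨N, H₀, h⟩ := hpad n (Σ i : Fin r, Fin (d i)) e T p (η / (6 * (P + 1))) (by positivity)
      refine ⟨N, H₀, fun hp' H hH => ?_⟩
      have h4 := h H hH
      convert h4
      exact Iff.rfl
    · exact ⟨0, 0, fun hp' => absurd hp'.out hp⟩
  choose Np Hf h3 using h3
  set Nf : ℕ → ℕ := fun p => if p ≤ m then Nw p else Np p with hNf
  set t : Finset ℕ := (Icc 1 P).filter Nat.Prime with ht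
  set M : ℕ := ∏ p ∈ t, p ^ (Nf p + 1) with hM
  have hMt : ∀ p : ℕ, p.Prime → p ≤ P → p ∈ t := fun p hp hpP =>
    Finset.mem_filter.2 ⟨Finset.mem_Icc.2 ⟨hp.one_le, hpP⟩, hp⟩
  have hM1 : 1 ≤ M := by
    refine Nat.one_le_iff_ne_zero.2 (Finset.prod_ne_zero_iff.2 fun p hp => ?_)
    exact pow_ne_zero _ (Finset.mem_filter.1 hp).2.ne_zero
  have hMdvd : ∀ p : ℕ, p.Prime → p ≤ P → p ^ (Nf p + 1) ∣ M := fun p hp hpP =>
    Finset.dvd_prod_of_mem (fun p => p ^ (Nf p + 1)) (hMt p hp hpP)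
  have hMp : ∀ p : ℕ, p.Prime → p ≤ P → p ∣ M := fun p hp hpP =>
    (dvd_pow_self p (Nat.succ_ne_zero _)).trans (hMdvd p hp hpP)
  have hMN : ∀ p : ℕ, p.Prime → p ≤ P → (p : ℤ) ^ Nf p ∣ (M : ℤ) := fun p hp hpP => by
    have h := (pow_dvd_pow p (Nat.le_succ (Nf p))).trans (hMdvd p hp hpP)
    exact_mod_cast h
  have hM0 : (0 : ℝ) < M := by exact_mod_cast hM1
  have i01 : (0 : Fin (n + 1)) ≠ 1 := by
    intro h
    have := congrArg Fin.val h
    rw [Fin.val_zero, Fin.val_one'] at this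
    rw [Nat.mod_eq_of_lt (by omega)] at this
    omega
  obtain ⟨i₂, hi2⟩ : ∃ i₂ : Fin (n + 1), i₂ ≠ 0 ∧ i₂ ≠ 1 := by
    refine ⟨⟨2, by omega⟩, ?_, ?_⟩
    · intro h
      have := congrArg Fin.val h
      rw [Fin.val_zero] at this
      simp at this
    · intro h
      have := congrArg Fin.val h
      rw [Fin.val_one', Nat.mod_eq_of_lt (by omega)] at this
      simp at this
  -- choice of the points
  have hG : ∀ γ : (k : Σ i : Fin r, Fin (d i)) → Mon n (e k + 1) → ℤ, ∃ a : Fin (n + 1) → ℤ,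
      (∃ a' : Fin (n + 1) → ℤ, ∀ (p : ℕ) [Fact p.Prime], m < p → p ≤ P → Stab T p (Nf p) γ a') →
      ∀ (p : ℕ) [Fact p.Prime], m < p → p ≤ P → Stab T p (Nf p) γ a := by
    intro γ
    by_cases h : ∃ a' : Fin (n + 1) → ℤ, ∀ (p : ℕ) [Fact p.Prime], m < p → p ≤ P →
        Stab T p (Nf p) γ a'
    · obtain ⟨a', ha'⟩ := h
      exact ⟨a', fun _ => ha'⟩
    · exact ⟨0, fun h' => absurd h' h⟩
  choose A hAγ using hG
  have hBB := fun (γ : (k : Σ i : Fin r, Fin (d i)) → Mon n (e k + 1) → ℤ) (a00 : Fin (n + 1) → ℤ) =>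
    crt P Nf (fun p => if p ≤ m then a00 else A γ)
  choose B hB using hBB
  have hb := fun (u : (((k : Σ i : Fin r, Fin (d i)) → Mon n (e k + 1) → ℤ) × (Fin (n + 1) → ℤ)) × Fin R) =>
    hcho n 0 i₂ hi2.1.symm M hM1 (B u.1.1 u.1.2) (xs u.2) (δ₁ / 2) (by positivity)
  choose b tt hb using hb
  set Γ : Finset ((k : Σ i : Fin r, Fin (d i)) → Mon n (e k + 1) → ℤ) :=
    Fintype.piFinset (fun _ => Fintype.piFinset (fun _ => Ico (0 : ℤ) M)) with hΓ
  have hΓc : (Γ.card : ℝ) = (M : ℝ) ^ sz n e := by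
    rw [hΓ, Fintype.card_piFinset]
    simp only [Fintype.card_piFinset, Int.card_Ico, Finset.prod_const, Finset.card_univ]
    rw [Finset.prod_pow_eq_pow_sum]
    have : ((M : ℤ) - 0).toNat = M := by simp
    rw [this]
    push_cast
    rfl
  set A₀ : Finset (Fin (n + 1) → ℤ) := Fintype.piFinset (fun _ => Ico (0 : ℤ) M₀) with hA₀
  have hA₀c : (A₀.card : ℝ) = W₀ := by
    rw [hA₀, Fintype.card_piFinset]
    simp only [Int.card_Ico, Finset.prod_const, Finset.card_univ, Fintype.card_fin]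
    have : ((M₀ : ℤ) - 0).toNat = M₀ := by simp
    rw [this]
    push_cast
    rfl
  set U : Finset ((((k : Σ i : Fin r, Fin (d i)) → Mon n (e k + 1) → ℤ) × (Fin (n + 1) → ℤ)) × Fin R) :=
    (Γ ×ˢ A₀) ×ˢ (Finset.univ : Finset (Fin R)) with hU
  have hUc : (U.card : ℝ) = (M : ℝ) ^ sz n e * W₀ * R := by
    rw [hU, Finset.card_product, Finset.card_product, Nat.cast_mul, Nat.cast_mul, hΓc, hA₀c]
    simp
  set η₂ : ℝ := η / (6 * (R + 1) * W₀ * (M : ℝ) ^ sz n e) with hη2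
  have hη2pos : 0 < η₂ := by positivity
  set V : ((((k : Σ i : Fin r, Fin (d i)) → Mon n (e k + 1) → ℤ) × (Fin (n + 1) → ℤ)) × Fin R) → Set ℝ :=
    fun u => Set.Ioo (-(tt u * δ₁ / 2)) (tt u * δ₁ / 2) with hV
  obtain ⟨Q, hQ⟩ : ∃ Q : ((((k : Σ i : Fin r, Fin (d i)) → Mon n (e k + 1) → ℤ) × (Fin (n + 1) → ℤ)) ×
      Fin R) → ((k : Σ i : Fin r, Fin (d i)) → Fin (e k + 2) → ℤ) → Prop,
      ∀ u g, Q u g ↔ (LocG T (V u) g ∧ ¬ ApprG T (V u) S NN g) :=
    ⟨_, fun _ _ => Iff.rfl⟩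
  -- the exceptional sets
  set D : ℕ → ((((k : Σ i : Fin r, Fin (d i)) → Mon n (e k + 1) → ℤ) × (Fin (n + 1) → ℤ)) × Fin R) →
      Finset ((k : Σ i : Fin r, Fin (d i)) → Mon n (e k + 1) → ℤ) :=
    fun H u => (bx n e H).filter (fun c => (∀ k m, (M : ℤ) ∣ c k m - u.1.1 k m) ∧
      ∃ p : ℕ, p.Prime ∧ ¬ p ∣ M ∧ ∃ k, ∀ j, (p : ℤ) ∣ line (b u) 1 (c k) j) with hD
  set E : ℕ → ((((k : Σ i : Fin r, Fin (d i)) → Mon n (e k + 1) → ℤ) × (Fin (n + 1) → ℤ)) × Fin R) →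
      Finset ((k : Σ i : Fin r, Fin (d i)) → Mon n (e k + 1) → ℤ) :=
    fun H u => (bx n e H).filter (fun c => Q u (fun k => line (b u) 1 (c k))) with hE
  have hDc : ∀ᶠ H : ℕ in atTop, ∀ u ∈ U, ((D H u).card : ℝ) ≤
      C / P * (((2 * H + 1 : ℕ) : ℝ) / M) ^ sz n e := by
    rw [Filter.eventually_all_finset]
    intro u _
    obtain ⟨hb1, hb2, hb3, hb4, hb5, hb6⟩ := hb u
    obtain ⟨H₀, hH₀⟩ := hC P M (by omega) hM1 hMp (b u) 0 1 i₂ i01 hi2.2 hb4 hb5 hb6 u.1.1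
    filter_upwards [eventually_ge_atTop H₀] with H hH
    have h4 := hH₀ H hH
    convert h4
  have hEc : ∀ᶠ H : ℕ in atTop, ∀ u ∈ U, ((E H u).card : ℝ) ≤
      η₂ * ((2 * H + 1 : ℕ) : ℝ) ^ sz n e := by
    rw [Filter.eventually_all_finset]
    intro u _
    obtain ⟨hb1, hb2, hb3, hb4, hb5, hb6⟩ := hb u
    have h4 := hlinw n (Σ i : Fin r, Fin (d i)) e (Q u) (by
      intro η' hη'
      obtain ⟨H₀, h⟩ := hA (Σ i : Fin r, Fin (d i)) _ finSigmaFinEquiv e T
        (hTY r d hd e hpar hun).1 (V u) isOpen_Ioo S NN η' hη'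
      refine ⟨H₀, fun H hH => ?_⟩
      have h6 : sz1 e = Pool.Agent.N718.DC.ncI e := rfl
      rw [h6]
      refine le_trans ?_ (h H hH)
      rw [Nat.cast_le]
      refine Finset.card_le_card ?_
      intro g hg
      rw [Finset.mem_filter] at hg ⊢
      exact ⟨hg.1, (hQ u g).1 hg.2⟩) (b u) 0 1 i01 hb4 η₂ hη2pos
    filter_upwards [h4] with H h5
    convert h5
  have hBc : ∀ᶠ H : ℕ in atTop, ∀ p ∈ t, ∀ hp : Fact p.Prime,
      (((bx n e H).filter (fun c => BadP T p hp (Np p) c)).card : ℝ) ≤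
        η / (6 * (P + 1)) * ((2 * H + 1 : ℕ) : ℝ) ^ sz n e := by
    rw [Filter.eventually_all_finset]
    intro p _
    filter_upwards [eventually_ge_atTop (Hf p)] with H hH hp
    exact h3 p hp H hH
  have hWc' : ∀ᶠ H : ℕ in atTop, ∀ p ∈ tm, ∀ hp : Fact p.Prime,
      (((bx n e H).filter (fun c => BadWM p hp (Nw p) (1 / (2 * (m : ℝ))) c)).card : ℝ) ≤
        η / (6 * (m + 1)) * ((2 * H + 1 : ℕ) : ℝ) ^ sz n e := by
    rw [Filter.eventually_all_finset]
    intro p _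
    filter_upwards [eventually_ge_atTop (Hw p)] with H hH hp
    exact hWc p hp H hH
  obtain ⟨H₂, hH₂⟩ := eventually_atTop.1 (hDc.and (hEc.and (hBc.and hWc')))
  refine ⟨max H1 H₂, fun H hH => ?_⟩
  obtain ⟨hD1, hE1, hB1, hW1⟩ := hH₂ H ((le_max_right _ _).trans hH)
  have hA1 := hR H ((le_max_left _ _).trans hH)
  set X : ℝ := ((2 * H + 1 : ℕ) : ℝ) with hX
  have hX0 : 0 < X := by
    rw [hX]
    positivity
  set A1 : Finset ((k : Σ i : Fin r, Fin (d i)) → Mon n (e k + 1) → ℤ) :=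
    (bx n e H).filter (fun c => ¬ StRM (1 / (4 * (m : ℝ))) xs δ c) with hA1d
  set B1 : ℕ → Finset ((k : Σ i : Fin r, Fin (d i)) → Mon n (e k + 1) → ℤ) := fun p =>
    if hp : p.Prime then (bx n e H).filter (fun c => BadP T p ⟨hp⟩ (Np p) c) else ∅ with hB1d
  set B2 : ℕ → Finset ((k : Σ i : Fin r, Fin (d i)) → Mon n (e k + 1) → ℤ) := fun p =>
    if hp : p.Prime then
      (bx n e H).filter (fun c => BadWM p ⟨hp⟩ (Nw p) (1 / (2 * (m : ℝ))) c) else ∅ with hB2d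
  have hcover := card_le_five ((bx n e H).filter (fun c => LocN T c ∧ ¬ WAmM m c)) A1 tm B2 t B1 U
    (D H) (E H)
    (by
      intro c hc
      obtain ⟨hcb, ⟨hcr, hcp⟩, hcg⟩ := Finset.mem_filter.1 hc
      by_contra hcon
      rw [not_or, not_or, not_or, not_or] at hcon
      obtain ⟨g1, g2', g2, g3, g4⟩ := hcon
      apply hcg
      refine hnrm n r d e he m hm c ?_
      intro X' Z' XR ZR hXZ hXR hZR hOnR
      -- the real place
      have r1 : StRM (1 / (4 * (m : ℝ))) xs δ c := by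
        by_contra h
        exact g1 (Finset.mem_filter.2 ⟨hcb, h⟩)
      obtain ⟨j, hj1, hj2⟩ := r1 XR ZR hXR hZR hOnR
      -- the primes up to m
      have w1 : ∀ p : Nat.Primes, ∃ a : Fin (n + 1) → ℤ, (p : ℕ) ≤ m →
          (∀ i, ‖((a i : ℤ) : ℚ_[(p : ℕ)]) - X' p i‖ < 1 / (2 * (m : ℝ))) ∧
            StabWM (p : ℕ) (Nw p) (1 / (2 * (m : ℝ))) c a (Z' p) := by
        intro p
        by_cases hpm : (p : ℕ) ≤ m
        · have h : StPM (p : ℕ) (Nw p) (1 / (2 * (m : ℝ))) c := by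
            by_contra h
            refine g2' ⟨p, htmm p p.2 hpm, ?_⟩
            rw [hB2d]
            simp only [dif_pos p.2]
            exact Finset.mem_filter.2 ⟨hcb, h⟩
          obtain ⟨h1, h2, h3⟩ := hXZ p hpm
          obtain ⟨a, ha1, ha2⟩ := h (X' p) (Z' p) h1 h2 h3
          exact ⟨a, fun _ => ⟨ha1, ha2⟩⟩
        · exact ⟨0, fun h => absurd h hpm⟩
      choose ap hap using w1
      obtain ⟨a0', ha0'⟩ := crt m Nw (fun p => if hp : p.Prime then ap ⟨p, hp⟩ else 0)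
      set a0 : Fin (n + 1) → ℤ := fun i => a0' i % (M₀ : ℤ) with ha0
      have hM₀z : (0 : ℤ) < M₀ := by exact_mod_cast hM₀1
      have ha0A : a0 ∈ A₀ := by
        rw [hA₀, Fintype.mem_piFinset]
        intro i
        rw [Finset.mem_Ico]
        exact ⟨Int.emod_nonneg _ hM₀z.ne', Int.emod_lt_of_pos _ hM₀z⟩
      have ha0p : ∀ p : Nat.Primes, (p : ℕ) ≤ m → ∀ i, ((p : ℕ) : ℤ) ^ Nw p ∣ a0 i - ap p i := by
        intro p hpm i
        have h1 := ha0' p p.2 hpm i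
        rw [dif_pos p.2] at h1
        have h2 : (M₀ : ℤ) ∣ a0 i - a0' i := by
          rw [← dvd_neg, neg_sub]
          exact Int.dvd_self_sub_emod
        have h3 := dvd_add ((hM₀dvd p p.2 hpm).trans h2) h1
        rwa [sub_add_sub_cancel] at h3
      -- the primes between m and P
      have p1 : ∀ p : ℕ, ∃ a : Fin (n + 1) → ℤ, ∀ hp : Fact p.Prime, m < p → p ≤ P →
          Stab T p (Nf p) c a := by
        intro p
        by_cases hp : p.Prime
        · by_cases hpP : p ≤ P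
          · by_cases hpm : m < p
            · haveI : Fact p.Prime := ⟨hp⟩
              have hNfp : Nf p = Np p := by
                rw [hNf]
                simp only
                rw [if_neg (by omega)]
              have h : ∃ a : Fin (n + 1) → ℤ, Stab T p (Np p) c a := by
                by_contra h
                refine g2 ⟨p, hMt p hp hpP, ?_⟩
                rw [hB1d]
                simp only [dif_pos hp]
                exact Finset.mem_filter.2 ⟨hcb, hcp p, h⟩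
              obtain ⟨a, ha⟩ := h
              rw [hNfp]
              exact ⟨a, fun _ _ _ => ha⟩
            · exact ⟨0, fun _ h => absurd h hpm⟩
          · exact ⟨0, fun _ _ h => absurd h hpP⟩
        · exact ⟨0, fun h => absurd h.out hp⟩
      choose a ha using p1
      obtain ⟨a', ha'⟩ := crt P Nf a
      -- the residue class
      set γ : (k : Σ i : Fin r, Fin (d i)) → Mon n (e k + 1) → ℤ := fun k m => c k m % (M : ℤ) with hγ
      have hMz : (0 : ℤ) < M := by exact_mod_cast hM1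
      have hγΓ : γ ∈ Γ := by
        rw [hΓ, Fintype.mem_piFinset]
        intro k
        rw [Fintype.mem_piFinset]
        intro m
        rw [Finset.mem_Ico]
        exact ⟨Int.emod_nonneg _ hMz.ne', Int.emod_lt_of_pos _ hMz⟩
      have hcγ : ∀ k m, (M : ℤ) ∣ c k m - γ k m := fun k m => Int.dvd_self_sub_emod
      have hγc : ∀ k m, (M : ℤ) ∣ γ k m - c k m := fun k m => by
        rw [← dvd_neg, neg_sub]
        exact hcγ k m
      have hS1 : ∀ (p : ℕ) [Fact p.Prime], m < p → p ≤ P → Stab T p (Nf p) γ a' := by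
        intro p hp hpm hpP
        exact stab_congr T p (Nf p) c γ (a p) a' (ha p hp hpm hpP)
          (fun k m => (hMN p hp.out hpP).trans (hγc k m)) (ha' p hp.out hpP)
      have hS2 := hAγ γ ⟨a', hS1⟩
      set u : (((k : Σ i : Fin r, Fin (d i)) → Mon n (e k + 1) → ℤ) × (Fin (n + 1) → ℤ)) × Fin R :=
        ((γ, a0), j) with hu
      obtain ⟨hb1, hb2, hb3, hb4, hb5, hb6⟩ := hb u
      have hUm : u ∈ U := by
        rw [hU]
        exact Finset.mem_product.2 ⟨Finset.mem_product.2 ⟨hγΓ, ha0A⟩, Finset.mem_univ _⟩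
      have hbB : ∀ p : ℕ, p.Prime → p ≤ P → ∀ i,
          (p : ℤ) ^ Nf p ∣ b u i - (if p ≤ m then a0 else A γ) i := by
        intro p hp hpP i
        have h1 := (hMN p hp hpP).trans (hb2 i)
        have h2 := hB γ a0 p hp hpP i
        have h3 := dvd_add h1 h2
        rwa [sub_add_sub_cancel] at h3
      have hbp : ∀ p : Nat.Primes, (p : ℕ) ≤ m → ∀ i,
          ((p : ℕ) : ℤ) ^ (Nw p) ∣ b u i - ap p i := by
        intro p hpm i
        have h1 := hbB p p.2 (hpm.trans hPm) i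
        rw [if_pos hpm] at h1
        have hNfp : Nf p = Nw p := by
          rw [hNf]
          simp only
          rw [if_pos hpm]
        rw [hNfp] at h1
        have h3 := dvd_add h1 (ha0p p hpm i)
        rwa [sub_add_sub_cancel] at h3
      -- the line
      have e0 : ∀ (K : Type) [Field K], (fun i => (1 : K) * (b u i : K) +
          if i = 1 then (0 : K) else 0) = fun i => (b u i : K) := by
        intro K _
        funext i
        simp
      have hb3' : ∀ i, |(b u i : ℝ) / tt u - xs j i| < δ := by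
        intro i
        have h1 := hb3 i
        have h2 : δ₁ ≤ δ := min_le_left _ _
        have h3 : xs u.2 i = xs j i := rfl
        rw [h3] at h1
        linarith
      have hreal1 : Pt T (ic c ℝ) (fun i => (b u i : ℝ)) := by
        obtain ⟨h5, z'', h5', h5''⟩ := hj2 (fun i => (b u i : ℝ) / tt u) hb3'
        have h6 := pt_smul T (ic c ℝ) _ (tt u) hb1.ne' ⟨h5, cm_of_onm h5''⟩
        have h7 : (fun i => tt u * ((b u i : ℝ) / tt u)) = fun i => (b u i : ℝ) := by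
          funext i
          field_simp
        rwa [h7] at h6
      have hps : ∀ {K : Type} [Field K] (x y : K), Pt1 T (fun k => line (b u) 1 (c k)) x y ↔
          PSG T (fun k => line (b u) 1 (c k)) x y := by
        intro K _ x y
        unfold Pt1 PSG
        exact Iff.rfl
      have hsmall : ∀ p : Nat.Primes, (p : ℕ) ≤ m →
          Pt1 T (fun k => line (b u) 1 (c k)) (1 : ℚ_[(p : ℕ)]) 0 := by
        intro p hpm
        refine (pt1_iff hlin T c (b u) 1 (1 : ℚ_[(p : ℕ)]) 0).2 ?_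
        rw [e0 ℚ_[(p : ℕ)]]
        obtain ⟨h1, z'', _, h2⟩ := (hap p hpm).2 c (b u)
          (fun k m => by rw [sub_self]; exact dvd_zero _) (hbp p hpm)
        exact ⟨h1, cm_of_onm h2⟩
      have hloc : LocG T (V u) (fun k => line (b u) 1 (c k)) := by
        constructor
        · refine ⟨0, ?_, (hps _ _).1 ((pt1_iff hlin T c (b u) 1 (1 : ℝ) 0).2 ?_)⟩
          · have : 0 < tt u * δ₁ / 2 := by positivity
            exact ⟨by linarith, this⟩
          · rw [e0 ℝ]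
            exact hreal1
        · intro p
          haveI : Fact (p : ℕ).Prime := ⟨p.2⟩
          by_cases hpm : (p : ℕ) ≤ m
          · exact ⟨1, 0, (hps _ _).1 (hsmall p hpm)⟩
          · by_cases hpP : (p : ℕ) ≤ P
            · refine ⟨1, 0, (hps _ _).1 ((pt1_iff hlin T c (b u) 1 (1 : ℚ_[(p : ℕ)]) 0).2 ?_)⟩
              rw [e0 ℚ_[(p : ℕ)]]
              refine hS2 p (by omega) hpP c (b u) (fun k m => (hMN p p.2 hpP).trans (hcγ k m))
                (fun i => ?_)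
              have h1 := hbB p p.2 hpP i
              rwa [if_neg hpm] at h1
            · have hpM : ¬ (p : ℕ) ∣ M := by
                intro hdvd
                rw [hM, Prime.dvd_finset_prod_iff p.2.prime] at hdvd
                obtain ⟨q, hq, hpq⟩ := hdvd
                have hq' := Finset.mem_filter.1 hq
                have h8 := p.2.dvd_of_dvd_pow hpq
                have h9 := (Nat.prime_dvd_prime_iff_eq p.2 hq'.2).1 h8
                rw [h9] at hpP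
                exact hpP (Finset.mem_Icc.1 hq'.1).2
              obtain ⟨x, y, hxy⟩ := hlsol (Σ i : Fin r, Fin (d i)) e T p (by omega) (by omega)
                (fun k => line (b u) 1 (c k)) (by
                  intro k
                  by_contra h
                  push Not at h
                  exact g3 ⟨u, hUm, Finset.mem_filter.2 ⟨hcb, hcγ, p, p.2, hpM, k, h⟩⟩)
              exact ⟨x, y, (hps _ _).1 hxy⟩
      have hglob : ApprG T (V u) S NN (fun k => line (b u) 1 (c k)) := by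
        by_contra h
        exact g4 ⟨u, hUm, Finset.mem_filter.2 ⟨hcb, (hQ _ _).2 ⟨hloc, h⟩⟩⟩
      obtain ⟨x, y, hx, hyU, hPS, hxy⟩ := hglob (fun _ => 1) (fun _ => 0) (by
        intro p hp
        refine ⟨by simp, (hps _ _).1 (hsmall p ((hSm p).1 hp))⟩)
      have hPt := (pt1_iff hlin T c (b u) 1 (x : ℚ) (y : ℚ)).1 ((hps _ _).2 hPS)
      have hqe : (fun i => (x : ℚ) * (b u i : ℚ) + if i = 1 then (y : ℚ) else 0) =
          fun i => ((x * b u i + if i = 1 then y else 0 : ℤ) : ℚ) := by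
        funext i
        split_ifs <;> push_cast <;> ring
      rw [hqe] at hPt
      refine detm hgluw hd he m hm c X' Z' XR ZR (fun p hp => ⟨(hXZ p hp).1, (hXZ p hp).2.1⟩) hXR hZR
        (b u) (tt u) δ₁ hb1 hδ₁ (xs j) hj1 (min_le_right _ _) (fun x'' hx'' => ?_) hb3 Nw hNw NN
        hNN' ap hap hbp 1 x y hx ?_ hPt.1 hPt.2 (fun p hp => hxy p ((hSm p).2 hp))
      · exact (hj2 x'' (fun i => (hx'' i).trans_le (min_le_left _ _))).2
      · rw [abs_lt]
        exact ⟨hyU.1, hyU.2⟩)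
  refine hcover.trans ?_
  have hXM : (X / M) ^ sz n e * (M : ℝ) ^ sz n e = X ^ sz n e := by
    rw [← mul_pow, div_mul_cancel₀ _ hM0.ne']
  have hXN : 0 ≤ X ^ sz n e := by positivity
  have q1 : (A1.card : ℝ) ≤ η / 6 * X ^ sz n e := hA1
  have q2 : ∑ p ∈ t, ((B1 p).card : ℝ) ≤ η / 6 * X ^ sz n e := by
    have h5 : ∀ p ∈ t, ((B1 p).card : ℝ) ≤ η / (6 * (P + 1)) * X ^ sz n e := by
      intro p hp
      have hp' := (Finset.mem_filter.1 hp).2
      rw [hB1d]
      simp only [dif_pos hp']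
      exact hB1 p hp ⟨hp'⟩
    refine (Finset.sum_le_sum h5).trans ?_
    rw [Finset.sum_const, nsmul_eq_mul]
    have h6 : (t.card : ℝ) ≤ P + 1 := by
      have : t.card ≤ P := (Finset.card_filter_le _ _).trans (by simp)
      have h7 : (t.card : ℝ) ≤ P := by exact_mod_cast this
      linarith
    calc (t.card : ℝ) * (η / (6 * (P + 1)) * X ^ sz n e)
        ≤ (P + 1) * (η / (6 * (P + 1)) * X ^ sz n e) :=
          mul_le_mul_of_nonneg_right h6 (by positivity)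
      _ = η / 6 * X ^ sz n e := by
          field_simp
  have q2' : ∑ p ∈ tm, ((B2 p).card : ℝ) ≤ η / 6 * X ^ sz n e := by
    have h5 : ∀ p ∈ tm, ((B2 p).card : ℝ) ≤ η / (6 * (m + 1)) * X ^ sz n e := by
      intro p hp
      have hp' := (Finset.mem_filter.1 hp).2
      rw [hB2d]
      simp only [dif_pos hp']
      exact hW1 p hp ⟨hp'⟩
    refine (Finset.sum_le_sum h5).trans ?_
    rw [Finset.sum_const, nsmul_eq_mul]
    have h6 : (tm.card : ℝ) ≤ m + 1 := by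
      have : tm.card ≤ m := (Finset.card_filter_le _ _).trans (by simp)
      have h7 : (tm.card : ℝ) ≤ m := by exact_mod_cast this
      linarith
    calc (tm.card : ℝ) * (η / (6 * (m + 1)) * X ^ sz n e)
        ≤ (m + 1) * (η / (6 * (m + 1)) * X ^ sz n e) :=
          mul_le_mul_of_nonneg_right h6 (by positivity)
      _ = η / 6 * X ^ sz n e := by
          field_simp
  have q3 : ∑ u ∈ U, ((D H u).card : ℝ) ≤ η / 6 * X ^ sz n e := by
    refine (Finset.sum_le_sum hD1).trans ?_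
    rw [Finset.sum_const, nsmul_eq_mul, hUc]
    have h5 : (M : ℝ) ^ sz n e * W₀ * R * (C / P * (X / M) ^ sz n e) =
        (C * R * W₀ / P) * ((X / M) ^ sz n e * (M : ℝ) ^ sz n e) := by ring
    rw [h5, hXM]
    refine mul_le_mul_of_nonneg_right ?_ hXN
    rw [div_le_iff₀ hP0]
    rw [div_le_iff₀ hη] at hPC
    linarith
  have q4 : ∑ u ∈ U, ((E H u).card : ℝ) ≤ η / 6 * X ^ sz n e := by
    refine (Finset.sum_le_sum hE1).trans ?_
    rw [Finset.sum_const, nsmul_eq_mul, hUc, hη2]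
    have hMN0 : (0 : ℝ) < (M : ℝ) ^ sz n e := by positivity
    calc (M : ℝ) ^ sz n e * W₀ * R * (η / (6 * (R + 1) * W₀ * (M : ℝ) ^ sz n e) * X ^ sz n e)
        = (R / (R + 1)) * (η / 6 * X ^ sz n e) := by
          field_simp
      _ ≤ 1 * (η / 6 * X ^ sz n e) := by
          refine mul_le_mul_of_nonneg_right ?_ (by positivity)
          rw [div_le_one (by positivity)]
          linarith
      _ = η / 6 * X ^ sz n e := one_mul _
  have h9 : η / 6 * X ^ sz n e + η / 6 * X ^ sz n e + η / 6 * X ^ sz n e + η / 6 * X ^ sz n e +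
      η / 6 * X ^ sz n e ≤ η * X ^ sz n e := by nlinarith [mul_nonneg hη.le hXN]
  linarith

end Pool.Agent.U460.DQ
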